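import Pool.Agent.Helper59.DML.Padic
import Pool.Agent.Helper59.DML.Sieve
import Pool.Agent.Helper59.DML.Embed
import Pool.Agent.Helper59.DML.Count1
import Pool.Agent.Helper59.DML.Count2
import Pool.Agent.Helper59.DML.Count3
import Pool.Agent.Helper59.DML.Degenerate

/-!
MP_e566f8_ag: the dynamical Mordell-Lang conjecture holds for almost all split maps of
`(P^1)^N` with rational coefficients, all points over a given finitely generated field and all
closed subvarieties over `ℂ`.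
-/

set_option autoImplicit false

open Filter Topology

namespace Pool.Agent.Helper59.Variants.AlmostAllMaps

open Pool.Agent.Helper59.DML

/-- integer coefficients of `N` pairs of binary forms, the `i`-th pair of degree `d i` -/
abbrev Coeffs (N : ℕ) (d : Fin N → ℕ) : Type := (i : Fin N) → Fin 2 → Fin (d i + 1) → ℤ

/-- the `i`-th pair of forms `(A_i, B_i)` as a self-map of `ℂ²` -/
noncomputable def lift {N : ℕ} {d : Fin N → ℕ} (c : Coeffs N d) (i : Fin N) :
    (Fin 2 → ℂ) → (Fin 2 → ℂ) := hlift (fun k j => ((c i k j : ℤ) : ℂ))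

/-- no pair `(A_i, B_i)` has a common zero in `P^1(ℂ)`, so that `f_i = [A_i : B_i]` is a rational
map of degree `d i` -/
def IsMap {N : ℕ} {d : Fin N → ℕ} (c : Coeffs N d) : Prop :=
  ∀ i, ∀ v : Fin 2 → ℂ, lift c i v = 0 → v = 0

/-- the dynamical Mordell-Lang property of `(f_1, ..., f_N)` for all points of `(P^1)^N` with
homogeneous coordinates in `L` and all closed subvarieties of `(P^1)^N` over `ℂ` -/
def DML {N : ℕ} {d : Fin N → ℕ} (c : Coeffs N d) (L : Set ℂ) : Prop :=
  ∀ v : Fin N → Fin 2 → ℂ, (∀ i, v i ≠ 0) → (∀ i k, v i k ∈ L) →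
    ∀ Hs : Finset (MvPolynomial (Fin N × Fin 2) ℂ), (∀ H ∈ Hs, MultiHom H) →
      ∃ n₀ P : ℕ, 0 < P ∧ ∀ n, n₀ ≤ n →
        ((∀ H ∈ Hs, MvPolynomial.eval (fun x => (lift c x.1)^[n] (v x.1) x.2) H = 0) ↔
          (∀ H ∈ Hs, MvPolynomial.eval (fun x => (lift c x.1)^[n + P] (v x.1) x.2) H = 0))

/-- the coefficient vectors of height at most `B` which define rational maps of degrees `d i`
with the dynamical Mordell-Lang property for the points over `L` -/
def goodMaps {N : ℕ} (d : Fin N → ℕ) (L : Set ℂ) (B : ℕ) : Set (Coeffs N d) :=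
  {c | (∀ i k j, |c i k j| ≤ (B : ℤ)) ∧ IsMap c ∧ DML c L}

theorem dml_of_prime {N : ℕ} {d : Fin N → ℕ} {c : Coeffs N d} {p : ℕ} [Fact p.Prime]
    {L : IntermediateField ℚ ℂ} (f : L →+* ℚ_[p])
    (hc : ∀ i, ∀ u : Fin 2 → ZMod p, u ≠ 0 → jac (fun k j => ((c i k j : ℤ) : ZMod p)) u ≠ 0) :
    DML c (L : Set ℂ) := by
  intro v hv hL Hs hH
  have h1 := dml_padic (E := ℂ) f c hc (fun i k => (⟨v i k, hL i k⟩ : L)) (fun i h0 => hv i (by
    funext k
    have := congrArg Subtype.val (congrFun h0 k)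
    exact this)) Hs hH
  have h2 : ∀ (i : Fin N) (n : ℕ) (k : Fin 2), algebraMap L ℂ
      ((hlift (fun k j => ((c i k j : ℤ) : L)))^[n] (fun k => (⟨v i k, hL i k⟩ : L)) k) =
      (lift c i)^[n] (v i) k := by
    intro i n k
    have := congrFun (map_hlift_iter (algebraMap L ℂ) (fun k j => ((c i k j : ℤ) : L))
      (fun k => (⟨v i k, hL i k⟩ : L)) n) k
    simp only [map_intCast] at this
    exact this
  simp only [h2] at h1
  exact h1

theorem count_all {d : ℕ} (hd : 1 ≤ d) : ∃ δ > (0 : ℝ), ∃ P₀ : ℕ, ∀ p : ℕ, p.Prime → P₀ ≤ p →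
    δ * (p : ℝ) ^ (2 * (d + 1)) ≤ (({c : Fin 2 → Fin (d + 1) → ZMod p |
      ∀ u : Fin 2 → ZMod p, u ≠ 0 → jac c u ≠ 0}.ncard : ℕ) : ℝ) := by
  rcases Nat.lt_or_ge d 3 with h | h
  · interval_cases d
    · exact count_one
    · exact count_two
  · exact count_three h

/-- the coefficient vectors as functions on one index set -/
def unc {N : ℕ} {d : Fin N → ℕ} (R : Type) :
    (Idx d → R) ≃ ((i : Fin N) → Fin 2 → Fin (d i + 1) → R) where
  toFun r i k j := r ⟨i, (k, j)⟩
  invFun c x := c x.1 x.2.1 x.2.2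
  left_inv _ := rfl
  right_inv _ := rfl

theorem card_idx {N : ℕ} (d : Fin N → ℕ) : Fintype.card (Idx d) = ∑ i, 2 * (d i + 1) := by
  simp [Idx, Fintype.card_sigma]

theorem exceptions_small {N : ℕ} (d : Fin N → ℕ) (hd : ∀ i, 1 ≤ d i) (s : Finset ℂ) :
    Tendsto (fun B : ℕ => (({r : Idx d → ℤ | r ∈ {r : Idx d → ℤ | IsMap (unc ℤ r) ∧
      ¬ DML (unc ℤ r) (IntermediateField.adjoin ℚ (s : Set ℂ) : Set ℂ)} ∧
      ∀ x, |r x| ≤ (B : ℤ)}.ncard : ℕ) : ℝ) / (2 * (B : ℝ) + 1) ^ (Fintype.card (Idx d)))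
      atTop (𝓝 0) := by
  classical
  set L := IntermediateField.adjoin ℚ (s : Set ℂ) with hL
  choose δ hδ P₀ hcount using fun i => count_all (hd i)
  -- the primes
  set PP : Set ℕ := {p : ℕ | ∃ _ : Fact p.Prime, Nonempty (L →+* ℚ_[p])} \
    (Finset.range (Finset.univ.sup P₀) : Set ℕ) with hPP
  have hPPinf : PP.Infinite := (embed_infinite s).sdiff (Finset.finite_toSet _)
  have hPPprime : ∀ p ∈ PP, p.Prime := fun p hp => by
    obtain ⟨⟨hp', -⟩, -⟩ := hp
    exact hp'.out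
  have hPPge : ∀ p ∈ PP, ∀ i, P₀ i ≤ p := fun p hp i => by
    have h1 : ¬ p < Finset.univ.sup P₀ := by
      have := hp.2
      simpa using this
    exact (Finset.le_sup (Finset.mem_univ i)).trans (not_lt.1 h1)
  let R : ∀ p : ℕ, Set (Idx d → ZMod p) := fun p =>
    {r | ∀ i, ∀ u : Fin 2 → ZMod p, u ≠ 0 → jac (unc _ r i) u ≠ 0}
  have hR : ∀ p ∈ PP, (∏ i, δ i) * (p : ℝ) ^ (Fintype.card (Idx d)) ≤ (((R p).ncard : ℕ) : ℝ) := by
    intro p hp
    have hpp := hPPprime p hp
    have : Fact p.Prime := ⟨hpp⟩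
    have h1 : (R p).ncard = ∏ i, ({c : Fin 2 → Fin (d i + 1) → ZMod p |
        ∀ u : Fin 2 → ZMod p, u ≠ 0 → jac c u ≠ 0}.ncard) := by
      have h2 : (R p).ncard = (Set.univ.pi fun i => {c : Fin 2 → Fin (d i + 1) → ZMod p |
          ∀ u : Fin 2 → ZMod p, u ≠ 0 → jac c u ≠ 0}).ncard := by
        rw [← Set.ncard_image_of_injective (R p) (unc (ZMod p)).injective]
        congr 1
        ext c
        simp only [Set.mem_image, Set.mem_pi, Set.mem_univ, true_imp_iff]
        constructor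
        · rintro ⟨r, hr, rfl⟩ i
          exact hr i
        · intro hc
          exact ⟨(unc _).symm c, hc, rfl⟩
      rw [h2, ← Nat.card_coe_set_eq]
      rw [Nat.card_congr (Equiv.Set.univPi (s := fun i => {c : Fin 2 → Fin (d i + 1) → ZMod p |
          ∀ u : Fin 2 → ZMod p, u ≠ 0 → jac c u ≠ 0}))]
      rw [Nat.card_pi]
      simp only [Nat.card_coe_set_eq]
    rw [h1, card_idx, ← Finset.prod_pow_eq_pow_sum, ← Finset.prod_mul_distrib]
    push_cast
    exact Finset.prod_le_prod (fun i _ => mul_nonneg (hδ i).le (by positivity))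
      (fun i _ => hcount i p hpp (hPPge p hp i))
  exact density_zero hPPinf hPPprime R (δ := ∏ i, δ i) (Finset.prod_pos fun i _ => hδ i) hR (by
      rintro r ⟨-, hr⟩ p ⟨⟨hp, ⟨f⟩⟩, -⟩ hmem
      exact hr (dml_of_prime f hmem))

/-- **Theorem.** Let `N`, degrees `d 0, ..., d (N-1) ≥ 1` and a finitely generated field `L = ℚ(s)` be
given. For 100% of the integer coefficient vectors `c` (in boxes) the maps `f_i = [A_i : B_i]` have
degree `d i` and `(f_0, ..., f_{N-1})` has the dynamical Mordell-Lang property for all points of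
`(P^1)^N` over `L` and all closed subvarieties over `ℂ`. -/
theorem result (N : ℕ) (d : Fin N → ℕ) (hd : ∀ i, 1 ≤ d i) (s : Finset ℂ) :
    Tendsto (fun B : ℕ => (((goodMaps d (IntermediateField.adjoin ℚ (s : Set ℂ) : Set ℂ) B).ncard : ℕ) : ℝ) /
      (2 * (B : ℝ) + 1) ^ (∑ i, 2 * (d i + 1))) atTop (𝓝 1) := by
  classical
  set L : Set ℂ := (IntermediateField.adjoin ℚ (s : Set ℂ) : Set ℂ) with hL
  set n := Fintype.card (Idx d) with hn
  set C : ℕ := ∑ i, (d i + 1) with hC
  set bad1 : ℕ → Finset (Idx d → ℤ) := fun B => (zbox (Idx d) B).filter fun r => ¬ IsMap (unc ℤ r) with hb1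
  set bad2 : ℕ → Finset (Idx d → ℤ) := fun B => (zbox (Idx d) B).filter fun r =>
    IsMap (unc ℤ r) ∧ ¬ DML (unc ℤ r) L with hb2
  have hgood : ∀ B, (((goodMaps d L B).ncard : ℕ) : ℝ) =
      (2 * (B : ℝ) + 1) ^ n - (bad1 B).card - (bad2 B).card := by
    intro B
    have h1 : (goodMaps d L B).ncard = ((zbox (Idx d) B).filter fun r =>
        IsMap (unc ℤ r) ∧ DML (unc ℤ r) L).card := by
      rw [← Set.ncard_coe_finset, ← Set.ncard_image_of_injective _ (unc (d := d) ℤ).injective]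
      congr 1
      ext c
      simp only [Set.mem_image, Finset.coe_filter, Set.mem_ofPred_eq, goodMaps, mem_zbox]
      constructor
      · rintro ⟨h1, h2, h3⟩
        exact ⟨(unc ℤ).symm c, ⟨fun x => h1 x.1 x.2.1 x.2.2, h2, h3⟩, rfl⟩
      · rintro ⟨r, ⟨h1, h2, h3⟩, rfl⟩
        exact ⟨fun i k j => h1 ⟨i, (k, j)⟩, h2, h3⟩
    have h2 : (zbox (Idx d) B).card = (bad1 B).card + ((bad2 B).card +
        ((zbox (Idx d) B).filter fun r => IsMap (unc ℤ r) ∧ DML (unc ℤ r) L).card) := by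
      rw [hb1, hb2]
      simp only
      rw [← Finset.card_filter_add_card_filter_not (s := zbox (Idx d) B) (fun r => ¬ IsMap (unc ℤ r))]
      congr 1
      rw [← Finset.card_filter_add_card_filter_not
        (s := (zbox (Idx d) B).filter fun r => ¬ ¬ IsMap (unc ℤ r)) (fun r => ¬ DML (unc ℤ r) L)]
      congr 1
      · rw [Finset.filter_filter]
        congr 1
        ext r; simp
      · rw [Finset.filter_filter]
        congr 1
        ext r; simp
    rw [card_zbox] at h2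
    rw [h1]
    have h3 : (((2 * B + 1) ^ Fintype.card (Idx d) : ℕ) : ℝ) = ((bad1 B).card : ℝ) + ((bad2 B).card +
        (((zbox (Idx d) B).filter fun r => IsMap (unc ℤ r) ∧ DML (unc ℤ r) L).card : ℝ)) := by
      rw [h2]; push_cast; ring
    push_cast at h3
    rw [hn, h3]; ring
  have hpos : ∀ B : ℕ, (0 : ℝ) < (2 * (B : ℝ) + 1) ^ n := fun B => by positivity
  have lim1 : Tendsto (fun B : ℕ => ((bad1 B).card : ℝ) / (2 * (B : ℝ) + 1) ^ n) atTop (𝓝 0) := by
    have h0 : Tendsto (fun B : ℕ => (C : ℝ) / (2 * (B : ℝ) + 1)) atTop (𝓝 0) := by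
      refine Tendsto.div_atTop tendsto_const_nhds ?_
      exact tendsto_atTop_add_const_right _ _
        (tendsto_natCast_atTop_atTop.const_mul_atTop (by norm_num : (0 : ℝ) < 2))
    refine squeeze_zero (fun B => div_nonneg (Nat.cast_nonneg _) (hpos B).le) (fun B => ?_) h0
    have h1 : (bad1 B).card ≤ C * (2 * B + 1) ^ (n - 1) := by
      refine degenerate_card d hd B (bad1 B) (Finset.filter_subset _ _) fun r hr => ?_
      have h2 := (Finset.mem_filter.1 hr).2
      simp only [IsMap, not_forall] at h2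
      obtain ⟨i, v, hv, hv2⟩ := h2
      exact ⟨i, v, hv2, fun k => congrFun hv k⟩
    have h1' : ((bad1 B).card : ℝ) ≤ C * (2 * (B : ℝ) + 1) ^ (n - 1) := by exact_mod_cast h1
    have hB : (0 : ℝ) < 2 * (B : ℝ) + 1 := by positivity
    rw [div_le_div_iff₀ (hpos B) hB]
    rcases Nat.eq_zero_or_pos n with h0 | h0
    · -- no coefficients
      have hC0 : C = 0 := by
        have : n = 2 * C := by rw [hn, card_idx, hC, Finset.mul_sum]
        omega
      rw [hC0] at h1'
      have h3 : ((bad1 B).card : ℝ) = 0 := le_antisymm (by simpa using h1') (Nat.cast_nonneg _)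
      rw [h3, hC0]; simp
    · have h3 : (2 * (B : ℝ) + 1) ^ n = (2 * (B : ℝ) + 1) ^ (n - 1) * (2 * (B : ℝ) + 1) := by
        rw [← pow_succ]; congr 1; omega
      rw [h3, ← mul_assoc]
      exact mul_le_mul_of_nonneg_right h1' hB.le
  have lim2 : Tendsto (fun B : ℕ => ((bad2 B).card : ℝ) / (2 * (B : ℝ) + 1) ^ n) atTop (𝓝 0) := by
    refine (exceptions_small d hd s).congr fun B => ?_
    congr 2
    rw [← Set.ncard_coe_finset]
    congr 1
    ext r
    simp only [Finset.coe_filter, Set.mem_ofPred_eq, mem_zbox, hb2]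
    tauto
  have hlim : Tendsto (fun B : ℕ => 1 - ((bad1 B).card : ℝ) / (2 * (B : ℝ) + 1) ^ n -
      ((bad2 B).card : ℝ) / (2 * (B : ℝ) + 1) ^ n) atTop (𝓝 (1 - 0 - 0)) :=
    (tendsto_const_nhds.sub lim1).sub lim2
  rw [sub_zero, sub_zero] at hlim
  refine hlim.congr fun B => ?_
  rw [hgood, ← card_idx, ← hn, sub_div, sub_div, div_self (hpos B).ne']

end Pool.Agent.Helper59.Variants.AlmostAllMaps
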