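import Pool.Agent.Helper59.PR.Low
import Pool.Agent.Helper59.PR.Plane
import Pool.Agent.Helper38.DM.NFT

/-!
MP_e566f8_ag: the dynamical Mordell-Lang conjecture for all curves in `P^1 × P^1` over `ℂ` when one
of the two rational maps is a polynomial (or is exceptional, or has degree at most one), the other
one being an arbitrary rational map.
-/

set_option autoImplicit false

namespace Pool.Agent.Helper59.Variants.OnePolynomial

/-- the self-map of `ℂ²` which lifts the rational map `[F : G]` of the projective line -/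
noncomputable def lift (F G : MvPolynomial (Fin 2) ℂ) : (Fin 2 → ℂ) → (Fin 2 → ℂ) :=
  fun v => ![MvPolynomial.eval v F, MvPolynomial.eval v G]

/-- the nonzero vectors `v` and `w` give the same point of the projective line -/
def SamePoint (v w : Fin 2 → ℂ) : Prop := v 0 * w 1 = v 1 * w 0

/-- `f = [F : G]`, of degree `d`, is special: `d ≤ 1`, or `f` is a polynomial (the denominator is
`c Y^d`), or some point `w` is its own full inverse image under the second iterate `f ∘ f`.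
For `d ≥ 2` the last condition means that `f` is conjugate to a polynomial or to `z ↦ z^(-d)`. -/
def Special (F G : MvPolynomial (Fin 2) ℂ) (d : ℕ) : Prop :=
  d ≤ 1 ∨ (∃ c : ℂ, c ≠ 0 ∧ G = MvPolynomial.C c * MvPolynomial.X 1 ^ d) ∨
    ∃ w : Fin 2 → ℂ, w ≠ 0 ∧ ∀ v : Fin 2 → ℂ, v ≠ 0 →
      (SamePoint w (lift F G (lift F G v)) ↔ SamePoint w v)

theorem special_low {F G : MvPolynomial (Fin 2) ℂ} {d : ℕ} (h : Pool.Agent.Helper59.PR.IsMap F G d)
    (hs : Special F G d) : d ≤ 1 ∨ Pool.Agent.Helper59.PR.Exc F G := by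
  rcases hs with hs | ⟨c, hc, hG⟩ | hs
  · exact Or.inl hs
  · rcases Nat.lt_or_ge d 1 with hd | hd
    · exact Or.inl (by omega)
    · refine Or.inr (Pool.Agent.Helper59.PR.exc_of_polynomial h hd hc fun v => ?_)
      rw [hG]
      simp
  · exact Or.inr hs

/-- **Theorem.** Let `f₁ = [F₁ : G₁]` and `f₂ = [F₂ : G₂]` be rational maps of the complex projective
line, one of which is special (for example a polynomial). Then for every point of `P^1 × P^1` and
every curve in `P^1 × P^1` (a nonzero bihomogeneous equation) the set of all `n` with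
`(f₁^n, f₂^n)(point)` on the curve is eventually periodic. -/
theorem result :
    ∀ (F₁ G₁ F₂ G₂ : MvPolynomial (Fin 2) ℂ) (d₁ d₂ : ℕ)
      (H : MvPolynomial (Fin 2 ⊕ Fin 2) ℂ) (p q : ℕ) (a b : Fin 2 → ℂ),
      F₁.IsHomogeneous d₁ → G₁.IsHomogeneous d₁ →
      (∀ v : Fin 2 → ℂ, MvPolynomial.eval v F₁ = 0 → MvPolynomial.eval v G₁ = 0 → v = 0) →
      F₂.IsHomogeneous d₂ → G₂.IsHomogeneous d₂ →
      (∀ v : Fin 2 → ℂ, MvPolynomial.eval v F₂ = 0 → MvPolynomial.eval v G₂ = 0 → v = 0) →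
      (Special F₁ G₁ d₁ ∨ Special F₂ G₂ d₂) →
      H ≠ 0 →
      MvPolynomial.IsWeightedHomogeneous
        (Sum.elim (fun _ : Fin 2 => (1 : ℕ)) (fun _ : Fin 2 => (0 : ℕ))) H p →
      MvPolynomial.IsWeightedHomogeneous
        (Sum.elim (fun _ : Fin 2 => (0 : ℕ)) (fun _ : Fin 2 => (1 : ℕ))) H q →
      a ≠ 0 → b ≠ 0 →
      ∃ N P : ℕ, 0 < P ∧ ∀ n : ℕ, N ≤ n →
        (MvPolynomial.eval (Sum.elim ((lift F₁ G₁)^[n] a) ((lift F₂ G₂)^[n] b)) H = 0 ↔
          MvPolynomial.eval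
            (Sum.elim ((lift F₁ G₁)^[n + P] a) ((lift F₂ G₂)^[n + P] b)) H = 0) := by
  intro F₁ G₁ F₂ G₂ d₁ d₂ H p q a b hF₁ hG₁ h1 hF₂ hG₂ h2 hs hH hp hq ha hb
  have hm1 : Pool.Agent.Helper59.PR.IsMap F₁ G₁ d₁ := ⟨hF₁, hG₁, h1⟩
  have hm2 : Pool.Agent.Helper59.PR.IsMap F₂ G₂ d₂ := ⟨hF₂, hG₂, h2⟩
  exact Pool.Agent.Helper59.PR.ep_low
    (Pool.Agent.Helper59.PR.plane_R fun d D1 D2 hd => Pool.Agent.Helper38.DM.NFT d D1 D2 hd)
    hm1 hm2 (hs.imp (special_low hm1) (special_low hm2)) ⟨hp, hq⟩ hH ha hb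

end Pool.Agent.Helper59.Variants.OnePolynomial
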