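import Pool.Agent.Helper59.DML.General
import Pool.Agent.Helper59.DML.Quad
import Pool.Agent.Helper59.DML.PrimesNR
import Pool.Agent.Helper59.DML.CountQ
import Pool.Agent.Helper59.DML.Sieve
import Pool.Agent.Helper59.DML.Degenerate

/-!
MP_e566f8_ag: the dynamical Mordell-Lang conjecture (all points, all closed subvarieties) for
split maps of `(P^1)^N` given by quadratic rational maps with rational coefficients, under an
explicit condition on `2N` integers, which holds for 100% of the integer coefficient vectors.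
-/

set_option autoImplicit false

open Filter Topology

namespace Pool.Agent.Helper59.Variants.QuadraticMaps

open Pool.Agent.Helper59.DML

/-- integer coefficients of `N` pairs of binary quadratic forms:
`A_i = c i 0 0 Y^2 + c i 0 1 X Y + c i 0 2 X^2` and `B_i = c i 1 0 Y^2 + c i 1 1 X Y + c i 1 2 X^2` -/
abbrev Coeffs (N : ℕ) : Type := Fin N → Fin 2 → Fin 3 → ℤ

/-- the `i`-th pair of forms `(A_i, B_i)` as a self-map of `ℂ²` -/
noncomputable def lift {N : ℕ} (c : Coeffs N) (i : Fin N) : (Fin 2 → ℂ) → (Fin 2 → ℂ) :=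
  hlift (d := 2) (fun k j => ((c i k j : ℤ) : ℂ))

/-- the resultant of `A_i, B_i`, and the resultant of the form of the critical points of
`f_i = [A_i : B_i]` with the form of its critical values -/
def inv {N : ℕ} (c : Coeffs N) (x : Fin N × Bool) : ℤ :=
  if x.2 then quadRes (c x.1) else critRes (c x.1)

/-- no product of an odd number of the `2N` integers is a perfect square -/
def Cond {N : ℕ} (c : Coeffs N) : Prop :=
  ∀ S : Finset (Fin N × Bool), Odd S.card → ¬ IsSquare (∏ x ∈ S, inv c x)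

/-- the dynamical Mordell-Lang property of `(f_1, ..., f_N)` for all points and all closed
subvarieties of `(P^1)^N` over `ℂ` -/
def DML {N : ℕ} (c : Coeffs N) : Prop :=
  ∀ v : Fin N → Fin 2 → ℂ, (∀ i, v i ≠ 0) →
    ∀ Hs : Finset (MvPolynomial (Fin N × Fin 2) ℂ), (∀ H ∈ Hs, MultiHom H) →
      ∃ n₀ P : ℕ, 0 < P ∧ ∀ n, n₀ ≤ n →
        ((∀ H ∈ Hs, MvPolynomial.eval (fun x => (lift c x.1)^[n] (v x.1) x.2) H = 0) ↔
          (∀ H ∈ Hs, MvPolynomial.eval (fun x => (lift c x.1)^[n + P] (v x.1) x.2) H = 0))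

/-- a common zero of the two forms makes the resultant zero. -/
theorem quadRes_zero {k : Type} [Field k] (c : Fin 2 → Fin 3 → k) (u : Fin 2 → k) (hu : u ≠ 0)
    (h : hlift (d := 2) c u = 0) : quadRes c = 0 := by
  have h0 : c 0 0 * u 1 ^ 2 + c 0 1 * u 0 * u 1 + c 0 2 * u 0 ^ 2 = 0 := by
    rw [← quad_form]; exact congrFun h 0
  have h1 : c 1 0 * u 1 ^ 2 + c 1 1 * u 0 * u 1 + c 1 2 * u 0 ^ 2 = 0 := by
    rw [← quad_form]; exact congrFun h 1
  by_cases hy : u 1 = 0
  · have hx : u 0 ≠ 0 := fun hx => hu (by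
      funext a
      fin_cases a
      · exact hx
      · exact hy)
    rw [hy] at h0 h1
    have h3 : c 0 2 = 0 := by
      have : c 0 2 * u 0 ^ 2 = 0 := by linear_combination h0
      exact (mul_eq_zero.1 this).resolve_right (pow_ne_zero _ hx)
    have h4 : c 1 2 = 0 := by
      have : c 1 2 * u 0 ^ 2 = 0 := by linear_combination h1
      exact (mul_eq_zero.1 this).resolve_right (pow_ne_zero _ hx)
    simp [quadRes, h3, h4]
  · obtain ⟨t, ht⟩ : ∃ t, u 0 = t * u 1 := ⟨u 0 / u 1, by field_simp⟩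
    rw [ht] at h0 h1
    have h3 : c 0 0 = -(c 0 1 * t) - c 0 2 * t ^ 2 := by
      have : (c 0 0 + c 0 1 * t + c 0 2 * t ^ 2) * u 1 ^ 2 = 0 := by linear_combination h0
      have := (mul_eq_zero.1 this).resolve_right (pow_ne_zero _ hy)
      linear_combination this
    have h4 : c 1 0 = -(c 1 1 * t) - c 1 2 * t ^ 2 := by
      have : (c 1 0 + c 1 1 * t + c 1 2 * t ^ 2) * u 1 ^ 2 = 0 := by linear_combination h1
      have := (mul_eq_zero.1 this).resolve_right (pow_ne_zero _ hy)
      linear_combination this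
    rw [quadRes, h3, h4]; ring

theorem quadRes_cast {R S : Type} [CommRing R] [CommRing S] (f : R →+* S) (c : Fin 2 → Fin 3 → R) :
    quadRes (fun k j => f (c k j)) = f (quadRes c) := by
  simp [quadRes]

theorem critRes_cast {R S : Type} [CommRing R] [CommRing S] (f : R →+* S) (c : Fin 2 → Fin 3 → R) :
    critRes (fun k j => f (c k j)) = f (critRes c) := by
  simp [critRes, al, be, ga, w0, w1, w2, map_ofNat]

theorem isMap_of_cond {N : ℕ} {c : Coeffs N} (h : Cond c) (i : Fin N) (v : Fin 2 → ℂ)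
    (hv : lift c i v = 0) : v = 0 := by
  by_contra hne
  have h1 := quadRes_zero (fun k j => ((c i k j : ℤ) : ℂ)) v hne hv
  have h2 := quadRes_cast (Int.castRingHom ℂ) (c i)
  simp only [eq_intCast] at h2
  rw [h1] at h2
  have h3 : quadRes (c i) = 0 := by exact_mod_cast h2.symm
  refine h {(i, true)} (by simp) ?_
  rw [Finset.prod_singleton]
  simp only [inv, if_true, h3]
  exact ⟨0, by simp⟩

theorem dml_of_cond {N : ℕ} {c : Coeffs N} (h : Cond c) : DML c := by
  intro v hv Hs hH
  obtain ⟨p, hp, hp2, hns⟩ := primes_nonsquare (inv c) h 2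
  have hfact : Fact p.Prime := ⟨hp⟩
  exact dml_complex (p := p) (κ := Empty) (fun x => x.elim) (algebraicIndependent_empty_type)
    (fun x => x.elim) (d := fun _ => 2) (fun i k j => ((c i k j : ℤ) : ℂ)) c
    (fun i b j => Or.inl rfl)
    (fun i k _ hk => quad_good hp (by omega) (c i) (by simpa [inv] using hns (i, true))
      (by simpa [inv] using hns (i, false)) k hk) v hv Hs hH

/-- nonsquares modulo one prime imply the condition. -/
theorem cond_of_prime {N : ℕ} {c : Coeffs N} {p : ℕ} (hp : p.Prime) (hp2 : p ≠ 2)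
    (h : ∀ x, ¬ IsSquare ((inv c x : ℤ) : ZMod p)) : Cond c := by
  have hfact : Fact p.Prime := ⟨hp⟩
  have h2 : ringChar (ZMod p) ≠ 2 := by rw [ZMod.ringChar_zmod_n]; exact hp2
  intro S hS hsq
  have h1 : ∀ x, quadraticChar (ZMod p) ((inv c x : ℤ) : ZMod p) = -1 := fun x =>
    quadraticChar_neg_one_iff_not_isSquare.2 (h x)
  have h3 : quadraticChar (ZMod p) ((∏ x ∈ S, inv c x : ℤ) : ZMod p) = -1 := by
    push_cast
    rw [map_prod, Finset.prod_congr rfl (fun x _ => h1 x), Finset.prod_const]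
    exact hS.neg_one_pow
  have h4 := quadraticChar_neg_one_iff_not_isSquare.1 h3
  apply h4
  obtain ⟨b, hb⟩ := hsq
  exact ⟨(b : ZMod p), by rw [hb]; push_cast; ring⟩

/-- the coefficient vectors as functions on one index set -/
def unc (N : ℕ) (R : Type) : (Fin N × (Fin 2 × Fin 3) → R) ≃ (Fin N → Fin 2 → Fin 3 → R) where
  toFun r i k j := r (i, (k, j))
  invFun c x := c x.1 x.2.1 x.2.2
  left_inv _ := rfl
  right_inv _ := rfl

theorem card_idx (N : ℕ) : Fintype.card (Fin N × (Fin 2 × Fin 3)) = 6 * N := by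
  simp
  ring

theorem exceptions_small (N : ℕ) :
    Tendsto (fun B : ℕ => (({r : Fin N × (Fin 2 × Fin 3) → ℤ |
      r ∈ {r : Fin N × (Fin 2 × Fin 3) → ℤ | ¬ Cond (unc N ℤ r)} ∧
      ∀ x, |r x| ≤ (B : ℤ)}.ncard : ℕ) : ℝ) /
        (2 * (B : ℝ) + 1) ^ (Fintype.card (Fin N × (Fin 2 × Fin 3)))) atTop (𝓝 0) := by
  classical
  obtain ⟨δ, hδ, P₀, hcount⟩ := count_quad
  set PP : Set ℕ := {p : ℕ | p.Prime} \ (Finset.range (P₀ + 3) : Set ℕ) with hPP
  have hPPinf : PP.Infinite := Nat.infinite_setOfPred_prime.sdiff (Finset.finite_toSet _)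
  have hPPprime : ∀ p ∈ PP, p.Prime := fun p hp => hp.1
  have hPPge : ∀ p ∈ PP, P₀ + 3 ≤ p := fun p hp => by
    have := hp.2
    simpa using this
  let R : ∀ p : ℕ, Set (Fin N × (Fin 2 × Fin 3) → ZMod p) := fun p =>
    {r | ∀ i, ¬ IsSquare (quadRes (unc N _ r i)) ∧ ¬ IsSquare (critRes (unc N _ r i))}
  have hR : ∀ p ∈ PP, (δ ^ N) * (p : ℝ) ^ (Fintype.card (Fin N × (Fin 2 × Fin 3))) ≤
      (((R p).ncard : ℕ) : ℝ) := by
    intro p hp
    have hpp := hPPprime p hp
    have : Fact p.Prime := ⟨hpp⟩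
    have h1 : (R p).ncard = ({c : Fin 2 → Fin 3 → ZMod p |
        ¬ IsSquare (quadRes c) ∧ ¬ IsSquare (critRes c)}.ncard) ^ N := by
      have h2 : (R p).ncard = (Set.univ.pi fun _ : Fin N => {c : Fin 2 → Fin 3 → ZMod p |
          ¬ IsSquare (quadRes c) ∧ ¬ IsSquare (critRes c)}).ncard := by
        rw [← Set.ncard_image_of_injective (R p) (unc N (ZMod p)).injective]
        congr 1
        ext c
        simp only [Set.mem_image, Set.mem_pi, Set.mem_univ, true_imp_iff]
        constructor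
        · rintro ⟨r, hr, rfl⟩ i
          exact hr i
        · intro hc
          exact ⟨(unc N _).symm c, hc, rfl⟩
      rw [h2, ← Nat.card_coe_set_eq]
      rw [Nat.card_congr (Equiv.Set.univPi (s := fun _ : Fin N => {c : Fin 2 → Fin 3 → ZMod p |
          ¬ IsSquare (quadRes c) ∧ ¬ IsSquare (critRes c)}))]
      rw [Nat.card_pi]
      simp only [Nat.card_coe_set_eq, Finset.prod_const, Finset.card_univ, Fintype.card_fin]
    rw [h1, card_idx, pow_mul, ← mul_pow]
    push_cast
    exact pow_le_pow_left₀ (by positivity) (hcount p hpp (by have := hPPge p hp; omega)) N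
  exact density_zero hPPinf hPPprime R (δ := δ ^ N) (pow_pos hδ N) hR (by
      rintro r hr p hp hmem
      apply hr
      have hpp := hPPprime p hp
      have hge := hPPge p hp
      refine cond_of_prime hpp (by omega) ?_
      rintro ⟨i, b⟩
      have h1 := hmem i
      have e1 := quadRes_cast (Int.castRingHom (ZMod p)) (unc N ℤ r i)
      have e2 := critRes_cast (Int.castRingHom (ZMod p)) (unc N ℤ r i)
      cases b
      · simp only [inv, Bool.false_eq_true, if_false]
        have h2 := h1.2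
        rw [show critRes (unc N (ZMod p) (fun i => ((r i : ℤ) : ZMod p)) i) =
          ((critRes (unc N ℤ r i) : ℤ) : ZMod p) from e2] at h2
        exact h2
      · simp only [inv, if_true]
        have h2 := h1.1
        rw [show quadRes (unc N (ZMod p) (fun i => ((r i : ℤ) : ZMod p)) i) =
          ((quadRes (unc N ℤ r i) : ℤ) : ZMod p) from e1] at h2
        exact h2)

/-- **Theorem.** Let `f_1, ..., f_N` be given by pairs of quadratic forms with integer
coefficients such that no product of an odd number of the `2N` integers `inv c x` is a perfect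
square. Then the `f_i` are rational maps of degree 2 and `(f_1, ..., f_N)` satisfies the dynamical
Mordell-Lang conjecture on `(P^1)^N`, for all points and all closed subvarieties over `ℂ`. The
condition holds for 100% of the integer coefficient vectors. -/
theorem result (N : ℕ) :
    (∀ c : Coeffs N, Cond c → (∀ i v, lift c i v = 0 → v = 0) ∧ DML c) ∧
    Tendsto (fun B : ℕ => (({c : Coeffs N | (∀ i k j, |c i k j| ≤ (B : ℤ)) ∧ Cond c}.ncard : ℕ) : ℝ) /
      (2 * (B : ℝ) + 1) ^ (6 * N)) atTop (𝓝 1) := by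
  classical
  refine ⟨fun c hc => ⟨isMap_of_cond hc, dml_of_cond hc⟩, ?_⟩
  have h0 := exceptions_small N
  have hlim : Tendsto (fun B : ℕ => 1 - (({r : Fin N × (Fin 2 × Fin 3) → ℤ |
      r ∈ {r : Fin N × (Fin 2 × Fin 3) → ℤ | ¬ Cond (unc N ℤ r)} ∧ ∀ x, |r x| ≤ (B : ℤ)}.ncard : ℕ) : ℝ) /
        (2 * (B : ℝ) + 1) ^ (Fintype.card (Fin N × (Fin 2 × Fin 3)))) atTop (𝓝 (1 - 0)) := tendsto_const_nhds.sub h0
  rw [sub_zero] at hlim
  refine hlim.congr fun B => ?_
  have hpos : (0 : ℝ) < (2 * (B : ℝ) + 1) ^ (Fintype.card (Fin N × (Fin 2 × Fin 3))) := by positivity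
  have h1 : {c : Coeffs N | (∀ i k j, |c i k j| ≤ (B : ℤ)) ∧ Cond c}.ncard =
      ((zbox (Fin N × (Fin 2 × Fin 3)) B).filter fun r => Cond (unc N ℤ r)).card := by
    rw [← Set.ncard_coe_finset, ← Set.ncard_image_of_injective _ (unc N ℤ).injective]
    congr 1
    ext c
    simp only [Set.mem_image, Finset.coe_filter, Set.mem_ofPred_eq, mem_zbox]
    constructor
    · rintro ⟨h1, h2⟩
      exact ⟨(unc N ℤ).symm c, ⟨fun x => h1 x.1 x.2.1 x.2.2, h2⟩, rfl⟩
    · rintro ⟨r, ⟨h1, h2⟩, rfl⟩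
      exact ⟨fun i k j => h1 (i, (k, j)), h2⟩
  have h2 : {r : Fin N × (Fin 2 × Fin 3) → ℤ | r ∈ {r : Fin N × (Fin 2 × Fin 3) → ℤ | ¬ Cond (unc N ℤ r)} ∧ ∀ x, |r x| ≤ (B : ℤ)}.ncard =
      ((zbox (Fin N × (Fin 2 × Fin 3)) B).filter fun r => ¬ Cond (unc N ℤ r)).card := by
    rw [← Set.ncard_coe_finset]
    congr 1
    ext r
    simp only [Finset.coe_filter, Set.mem_ofPred_eq, mem_zbox]
    exact and_comm
  have h3 := Finset.card_filter_add_card_filter_not (s := zbox (Fin N × (Fin 2 × Fin 3)) B) (fun r => Cond (unc N ℤ r))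
  rw [card_zbox] at h3
  have h4 : (((zbox (Fin N × (Fin 2 × Fin 3)) B).filter fun r => Cond (unc N ℤ r)).card : ℝ) +
      (((zbox (Fin N × (Fin 2 × Fin 3)) B).filter fun r => ¬ Cond (unc N ℤ r)).card : ℝ) =
      (2 * (B : ℝ) + 1) ^ (Fintype.card (Fin N × (Fin 2 × Fin 3))) := by exact_mod_cast h3
  rw [h1, h2, ← card_idx]
  field_simp
  linarith

end Pool.Agent.Helper59.Variants.QuadraticMaps
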