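import Pool.Agent.Helper59.DML.General

/-!
MP_e566f8_ag: the dynamical Mordell-Lang conjecture for very general split maps of `(P^1)^N`.
-/

set_option autoImplicit false

namespace Pool.Agent.Helper59.Variants.VeryGeneralMaps

open Pool.Agent.Helper59.DML

/-- **Theorem.** Let `c` be the family of coefficients of `N` pairs of binary forms `(A_i, B_i)` of
degrees `d i ≥ 1`, algebraically independent over `ℚ`. Then the maps `f_i = [A_i : B_i]` satisfy the
dynamical Mordell-Lang conjecture on `(P^1)^N`: all starting points and all closed subvarieties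
over `ℂ`. -/
theorem result (N : ℕ) (d : Fin N → ℕ) (hd : ∀ i, 1 ≤ d i)
    (c : (i : Fin N) → Fin 2 → Fin (d i + 1) → ℂ)
    (hc : AlgebraicIndependent ℚ
      (fun x : (i : Fin N) × (Fin 2 × Fin (d i + 1)) => c x.1 x.2.1 x.2.2)) :
    ∀ v : Fin N → Fin 2 → ℂ, (∀ i, v i ≠ 0) →
    ∀ Hs : Finset (MvPolynomial (Fin N × Fin 2) ℂ), (∀ H ∈ Hs, MultiHom H) →
      ∃ n₀ P : ℕ, 0 < P ∧ ∀ n, n₀ ≤ n →
        ((∀ H ∈ Hs, MvPolynomial.eval (fun x => (hlift (c x.1))^[n] (v x.1) x.2) H = 0) ↔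
          (∀ H ∈ Hs, MvPolynomial.eval (fun x => (hlift (c x.1))^[n + P] (v x.1) x.2) H = 0)) := by
  intro v hv Hs hH
  have hprod : (∏ i, d i) ≠ 0 := Finset.prod_ne_zero_iff.2 fun i _ => by have := hd i; omega
  obtain ⟨p, hp, -, hmod⟩ := Nat.exists_prime_gt_modEq_one 0 hprod
  have : Fact p.Prime := ⟨hp⟩
  have hdvd : ∀ i, d i ∣ p - 1 := by
    intro i
    have h1 : (∏ i, d i) ∣ p - 1 := (Nat.modEq_iff_dvd' hp.one_lt.le).1 hmod.symm
    exact (Finset.dvd_prod_of_mem d (Finset.mem_univ i)).trans h1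
  choose r hr using fun i => exists_special (hd i) hp (hdvd i)
  exact dml_complex (p := p) (fun x : (i : Fin N) × (Fin 2 × Fin (d i + 1)) => c x.1 x.2.1 x.2.2) hc
    (fun x => r x.1 x.2.1 x.2.2) c r (fun i b j => Or.inr ⟨⟨i, (b, j)⟩, rfl, rfl⟩)
    (fun i k _ hk => hr i k hk) v hv Hs hH

end Pool.Agent.Helper59.Variants.VeryGeneralMaps
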